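import Pool.Agent.Helper97.Ku.GoalsC

/-! Lifting extensions of `star w` and the key equivalence. -/

namespace Pool.Agent.Helper97.Ku.PkLFT

open Set

theorem mem_bo {P : Prop} {p : Cond} : p ∈ (bo P : BA) ↔ P := by
  unfold bo
  rw [RO.mem_iSup]
  constructor
  · intro h
    obtain ⟨r, _, hP, _⟩ := h p le_rfl
    exact hP
  · intro hP q _
    exact ⟨q, le_rfl, hP, RO.mem_top q⟩

theorem node {p : Cond} {ξ : Kap} {x : Val} (h : p.v (.row ξ) = some x) :
    ∃ t ∈ p.S, x = .nd t := by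
  have h1 := p.v_ok _ _ h
  cases x with
  | nd t => exact ⟨t, h1, rfl⟩
  | od η => exact absurd h1 (by simp [Ok])

theorem upd_rs {p : Cond} {c : Coord} {x : Val} {h : Ok p.S c x} {D : Set Coord} (hc : c ∉ D) :
    (upd p c x h).rs D = p.rs D := by
  refine Cond.ext rfl rfl ?_
  funext c'
  by_cases hc' : c' ∈ D
  · rw [Cond.rs_v_mem _ hc', Cond.rs_v_mem _ hc', upd_v_ne]
    rintro rfl
    exact hc hc'
  · rw [Cond.rs_v_not _ hc', Cond.rs_v_not _ hc']

theorem upd_le_of {p w : Cond} {c : Coord} {x : Val} {h : Ok p.S c x} (hp : p ≤ w)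
    (hx : ∀ z, w.v c = some z → x.res w.g = z) : upd p c x h ≤ w := by
  refine ⟨hp.1, hp.2.1, fun c' z hz => ?_⟩
  by_cases h1 : c' = c
  · subst h1
    exact ⟨x, upd_v_self _ _ _ _, hx z hz⟩
  · rw [upd_v_ne _ _ _ h1]
    exact hp.2.2 c' z hz

theorem star_rs {w : Cond} {D : Set Coord} {ξ0 : Kap} {s : Set Om} {hs : s ∈ w.S}
    (h0 : Coord.row ξ0 ∉ D) : (star w D ξ0 s hs).rs D = w.rs D := by
  unfold star
  rw [upd_rs h0, Cond.rs_rs, inter_self]

theorem star_v {w : Cond} {D : Set Coord} {ξ0 : Kap} {s : Set Om} {hs : s ∈ w.S} :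
    (star w D ξ0 s hs).v (.row ξ0) = some (.nd s) := upd_v_self _ _ _ _

theorem star_supp {w : Cond} {D : Set Coord} {ξ0 : Kap} {s : Set Om} {hs : s ∈ w.S} :
    (star w D ξ0 s hs).supp ⊆ insert (Coord.row ξ0) D := by
  intro c hc
  by_cases h1 : c = Coord.row ξ0
  · exact Or.inl h1
  · right
    by_contra h2
    refine hc ?_
    unfold star
    rw [upd_v_ne _ _ _ h1, Cond.rs_v_not _ h2]

theorem star_le {w u : Cond} {D : Set Coord} {ξ0 : Kap} {t : Set Om} {ht : t ∈ w.S}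
    (hu : u.supp ⊆ insert (Coord.row ξ0) D) (h0 : Coord.row ξ0 ∉ D) (h : w ≤ u.rs D)
    (hv : ∀ z, u.v (.row ξ0) = some z → (Val.nd t).res u.g = z) : star w D ξ0 t ht ≤ u := by
  refine ⟨h.1, h.2.1, fun c z hz => ?_⟩
  have hc : c ∈ insert (Coord.row ξ0) D := hu (by simp [Cond.supp, hz])
  rcases hc with rfl | hc
  · exact ⟨.nd t, star_v, hv z hz⟩
  · have h1 : c ≠ Coord.row ξ0 := by
      rintro rfl
      exact h0 hc
    unfold star
    rw [upd_v_ne _ _ _ h1, Cond.rs_v_mem _ hc]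
    exact h.2.2 c z (by rw [Cond.rs_v_mem _ hc]; exact hz)

theorem node_of_le_star {w y : Cond} {D : Set Coord} {ξ0 : Kap} {s : Set Om} {hs : s ∈ w.S}
    (h : y ≤ star w D ξ0 s hs) :
    ∃ t ∈ y.S, y.v (.row ξ0) = some (.nd t) ∧ t ∩ Iio w.g = s := by
  obtain ⟨x, hx, hx'⟩ := h.2.2 _ _ (star_v (w := w) (hs := hs))
  obtain ⟨t, ht, rfl⟩ := node hx
  refine ⟨t, ht, hx, ?_⟩
  simpa [Val.res, star] using hx'

theorem lft : G_LFT := by
  intro D ξ0 ξ ξ' w s s' hs hs' h0 _ _ hD hD' hw hw' y y' hy hy' hyy _ _ hee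
  obtain ⟨t, ht, hyt, hts⟩ := node_of_le_star hy
  obtain ⟨t', ht', hyt', hts'⟩ := node_of_le_star hy'
  have hS : y'.S = y.S := (congrArg Cond.S hyy).symm
  rw [hS] at ht'
  have hd : y.rs D ≤ w.rs D := by
    rw [← star_rs (hs := hs) h0]
    exact Cond.rs_mono hy D
  have hds : (y.rs D).supp ⊆ D := Cond.supp_rs_subset y D
  have hc := cmp_of_le hd hds
  have ha : am w (y.rs D) hc ≤ w := am_le_left hc
  have har : (am w (y.rs D) hc).rs D = y.rs D := am_rs hd hds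
  have ok1 : Ok (am w (y.rs D) hc).S (.row ξ) (.nd t) := ht
  have ok2 : Ok (upd (am w (y.rs D) hc) (.row ξ) (.nd t) ok1).S (.row ξ') (.nd t') := ht'
  have le1 : upd (am w (y.rs D) hc) (.row ξ) (.nd t) ok1 ≤ w := by
    refine upd_le_of ha fun z hz => ?_
    rw [hw] at hz
    simp only [Option.some.injEq] at hz
    rw [← hz, Val.res, hts]
  refine ⟨upd (upd (am w (y.rs D) hc) (.row ξ) (.nd t) ok1) (.row ξ') (.nd t') ok2, ?_, ?_, ?_,
    ?_⟩
  · refine upd_le_of le1 fun z hz => ?_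
    rw [hw'] at hz
    simp only [Option.some.injEq] at hz
    rw [← hz, Val.res, hts']
  · rw [upd_rs hD', upd_rs hD, har]
  · by_cases h1 : ξ = ξ'
    · have h2 := hee h1
      subst h1
      subst h2
      rw [upd_v_self, hyt']
    · rw [upd_v_ne, upd_v_self, hyt]
      intro h2
      exact h1 (by injection h2)
  · rw [upd_v_self, hyt']

theorem ekey : G_LFT → G_RD → G_ROW → G_ENS → G_EKEY := by
  intro hL hRD hROW hENS G b D ξ0 s0 q hq w ξ s hs hξ hD hw hwq n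
  constructor
  · intro hE
    by_contra hb
    obtain ⟨y0, hy0, hy0b⟩ := RO.not_mem_iff.mp hb
    have hyb := (hRD Om b (insert (Coord.row ξ0) D) q hq.cap hq.sp n y0 (hy0.trans hwq)).2 hy0b
    have hy : y0.rs (insert (Coord.row ξ0) D) ≤ star w D ξ0 s hs := by
      have h1 := Cond.rs_mono hy0 (insert (Coord.row ξ0) D)
      rw [Cond.rs_eq_self star_supp] at h1
      exact h1
    have hys : (y0.rs (insert (Coord.row ξ0) D)).supp ⊆ insert (Coord.row ξ0) D :=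
      Cond.supp_rs_subset _ _
    generalize y0.rs (insert (Coord.row ξ0) D) = y at hyb hy hys
    obtain ⟨w1, hw1, hw1D, hw1v, _⟩ := hL D ξ0 ξ ξ w s s hs hs hq.nD hξ hξ hD hD hw hw y y hy hy
      rfl hys hys (fun _ => rfl)
    obtain ⟨t, ht, hyt, hts⟩ := node_of_le_star hy
    have hE1 : w1 ∈ EAV G (rowN ξ) (EN G q D ξ0 b) n := RO.lower hw1 hE
    unfold EAV at hE1
    obtain ⟨w1', hw1', γ, hγ⟩ := RO.mem_iSup.mp hE1 w1 le_rfl
    obtain ⟨w2, hw2, k, hk⟩ := RO.mem_iSup.mp hγ w1' le_rfl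
    obtain ⟨hk1, hk2, hk3⟩ := hk
    rw [mem_bo] at hk1
    obtain ⟨w3, hw3, u, hus, huq, hwu, hug, _, huv, hub⟩ := RO.mem_cl.mp hk3 w2 le_rfl
    have hw31 : w3 ≤ w1 := hw3.trans (hw2.trans hw1')
    rw [hyt] at hw1v
    obtain ⟨x3, hx3, hx3'⟩ := hw31.2.2 _ _ hw1v
    obtain ⟨t3, ht3, rfl⟩ := node hx3
    have hγg : γ ≤ w3.g := by
      rw [← hug]
      exact hwu.1
    have hlev : lev w3 γ = u.S := by
      rw [← hug]
      exact hwu.2.1
    obtain ⟨_, _, _, _, _, _, _, h8, _⟩ := hROW G w3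
    have h9 := (h8 ξ t3 γ k hx3 hγg hk1).mp (RO.lower hw3 hk2)
    rw [hlev] at h9
    have hxu : star w3 D ξ0 t3 ht3 ≤ u := by
      refine star_le hus hq.nD hwu fun z hz => ?_
      rw [huv] at hz
      simp only [Option.some.injEq] at hz
      rw [← hz, h9, hug]
      rfl
    have hyg : w1.g = y.g := by
      have h := congrArg Cond.g hw1D
      rwa [Cond.rs_g, Cond.rs_g] at h
    have hxy : star w3 D ξ0 t3 ht3 ≤ y := by
      refine star_le hys hq.nD ?_ fun z hz => ?_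
      · rw [← hw1D]
        exact hw31.trans (Cond.le_rs _ _)
      · rw [hyt] at hz
        simp only [Option.some.injEq] at hz
        rw [← hz, ← hx3', hyg]
    exact RO.not_mem_compl (RO.lower hxu hub) (RO.lower hxy hyb)
  · intro hb
    obtain ⟨_, h2, _⟩ := hENS G w.S w.S_ct w.S_ne
    obtain ⟨k, hk, hks⟩ := h2 s hs
    obtain ⟨_, h2, _, _, _, _, _, h8, _⟩ := hROW G w
    have h3 : w ∈ ndV G (rowN ξ) w.g k := by
      rw [h8 ξ s w.g k hw le_rfl hk, h2, hks]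
      exact (inter_eq_left.mpr (w.S_sub s hs)).symm
    have h4 : w ∈ EN G q D ξ0 b w.g k n := by
      refine RO.mem_cl.mpr fun r hr => ⟨r, le_rfl, star w D ξ0 s hs, star_supp, hwq, ?_, rfl, hk,
        ?_, hb⟩
      · rw [star_rs hq.nD]
        exact hr.trans (Cond.le_rs _ _)
      · rw [star_v]
        have h5 : (star w D ξ0 s hs).S = w.S := rfl
        rw [h5, hks]
    unfold EAV
    exact le_iSup (fun γ => ⨆ k, (bo (k < G.w0) ⊓ (ndV G (rowN ξ) γ k ⊓ EN G q D ξ0 b γ k n)))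
      w.g w (le_iSup (fun k => (bo (k < G.w0) ⊓ (ndV G (rowN ξ) w.g k ⊓
        EN G q D ξ0 b w.g k n))) k w ⟨mem_bo.mpr hk, h3, h4⟩)

end Pool.Agent.Helper97.Ku.PkLFT
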